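import Pool.Agent.Lib.MP_ea4949_co.H23.Final

/-!
Almost all matroids are asymmetric, with a doubly exponentially small error, in every class of
matroids that is closed under isomorphism and contains the sparse paving matroids, labelled and
unlabelled.  The definitions are in `Pool/Agent/Lib/MP_ea4949_co/H23/Defs.lean`.
-/

set_option autoImplicit false

open Pool.Agent.Lib.MP_ea4949_co.H23

namespace Pool.Agent.Results.MP_ea4949_co.DoublyExponential

theorem result :
    -- the proportion of asymmetric matroids among the unlabelled matroids tends to `1`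
    Filter.Tendsto
      (fun n : ℕ => (unlabelled (fun M : Mat n => Asymmetric M) : ℝ) /
        (unlabelled (fun _ : Mat n => True) : ℝ)) Filter.atTop (nhds 1) ∧
    (∃ n₀ : ℕ, ∀ n : ℕ, n₀ ≤ n →
      -- every class that contains all sparse paving matroids
      (∀ P : Mat n → Prop, IsoClosed P → (∀ M : Mat n, SparsePaving M → P M) →
        AlmostAllAsymmetric P) ∧
      -- every class of matroids of one rank `r` in the central range that contains all sparse
      -- paving matroids of rank `r`
      (∀ r : ℕ, n.choose (n / 2) ≤ n ^ 2 * n.choose r → ∀ P : Mat n → Prop, IsoClosed P →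
        (∀ M : Mat n, P M → M.1.eRank = (r : ℕ∞)) →
        (∀ M : Mat n, SparsePaving M → M.1.eRank = (r : ℕ∞) → P M) → AlmostAllAsymmetric P) ∧
      -- every isomorphism closed class has the same proportion among unlabelled and among
      -- labelled matroids, up to the same error
      (∀ P : Mat n → Prop, IsoClosed P →
        |(unlabelled P : ℝ) / unlabelled (fun _ : Mat n => True) -
          (labelled P : ℝ) / labelled (fun _ : Mat n => True)| ≤
            (2 : ℝ) ^ (-((2 : ℝ) ^ n / (n : ℝ) ^ 7)))) ∧
    -- the order of the exponent is right up to the polynomial factor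
    (∀ n : ℕ, 2 ≤ n →
      (2 : ℝ) ^ (-(2 : ℝ) ^ n) * unlabelled (fun _ : Mat n => True) ≤
        unlabelled (fun M : Mat n => ¬ Asymmetric M) ∧
      (2 : ℝ) ^ (-(2 : ℝ) ^ n) * labelled (fun _ : Mat n => True) ≤
        labelled (fun M : Mat n => ¬ Asymmetric M)) := by
  refine ⟨limit, ?_, fun n hn => lower hn⟩
  obtain ⟨n₀, hn₀⟩ := classes
  refine ⟨n₀, fun n hn => ?_⟩
  obtain ⟨-, h1, h2⟩ := hn₀ n hn
  exact ⟨h1, h2, fun P hP => transfer_of hP (h1 _ isoClosed_true (fun _ _ => trivial))⟩

end Pool.Agent.Results.MP_ea4949_co.DoublyExponential
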